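import Pool.Agent.N299.DT.Stm

set_option autoImplicit false

namespace Pool.Agent.N495.DT

open Pool.Agent.N299.DT

theorem c1_arith (m S S' : ℕ) (h1 : S % (4 * m + 4) < m) (h2 : (S' + (2 * m + 2)) % (4 * m + 4) < m)
    (h3 : S' ≤ S + (m + 1)) (h4 : S ≤ S' + (m + 1)) : False := by
  obtain ⟨q, hq⟩ : ∃ q, S = (4 * m + 4) * q + S % (4 * m + 4) :=
    ⟨S / (4 * m + 4), (Nat.div_add_mod S (4 * m + 4)).symm⟩
  obtain ⟨q', hq'⟩ : ∃ q', S' + (2 * m + 2) = (4 * m + 4) * q' + (S' + (2 * m + 2)) % (4 * m + 4) :=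
    ⟨(S' + (2 * m + 2)) / (4 * m + 4), (Nat.div_add_mod _ (4 * m + 4)).symm⟩
  set r := S % (4 * m + 4)
  set r' := (S' + (2 * m + 2)) % (4 * m + 4)
  rcases le_or_gt q' q with h | h
  · obtain ⟨d, rfl⟩ := Nat.exists_eq_add_of_le h
    have e1 : (4 * m + 4) * (q' + d) = (4 * m + 4) * q' + (4 * m + 4) * d := by ring
    rw [e1] at hq
    generalize (4 * m + 4) * d = D at *
    omega
  · obtain ⟨d, rfl⟩ := Nat.exists_eq_add_of_lt h
    have e1 : (4 * m + 4) * (q + d + 1) = (4 * m + 4) * q + (4 * m + 4) * d + (4 * m + 4) := by ring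
    rw [e1] at hq'
    generalize (4 * m + 4) * d = D at *
    omega

theorem t_C1 : S_C1 := by
  intro m c c' h1 h2
  by_contra hno
  push Not at hno
  refine c1_arith m (∑ l, c l) (∑ l, c' l) h1 h2 ?_ ?_
  · calc ∑ l, c' l ≤ ∑ l : Fin (m + 1), (c l + 1) := Finset.sum_le_sum (fun l _ => by
          have := (hno l).2
          have := (hno l).1
          omega)
      _ = ∑ l, c l + (m + 1) := by
          rw [Finset.sum_add_distrib]
          simp
  · calc ∑ l, c l ≤ ∑ l : Fin (m + 1), (c' l + 1) := Finset.sum_le_sum (fun l _ => by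
          have := (hno l).2
          have := (hno l).1
          omega)
      _ = ∑ l, c' l + (m + 1) := by
          rw [Finset.sum_add_distrib]
          simp

/-- a sequence with small positive steps meets a short residue window -/
theorem c2_steps (m : ℕ) (hm : 0 < m) (S : ℕ → ℕ) (n : ℕ)
    (hs : ∀ j < n, S (j + 1) ≤ S j + (m - 1)) (hS : S 0 + (4 * m + 4) ≤ S n) :
    ∃ j ≤ n, S j % (4 * m + 4) < m := by
  -- the least multiple of the modulus not below `S 0`
  set N := 4 * m + 4 with hN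
  have hq : ∃ q, S 0 ≤ N * q ∧ N * q < S 0 + N := by
    refine ⟨(S 0 + (N - 1)) / N, ?_, ?_⟩
    · have h1 := Nat.div_add_mod (S 0 + (N - 1)) N
      have h2 := Nat.mod_lt (S 0 + (N - 1)) (show 0 < N by omega)
      omega
    · have h1 := Nat.div_add_mod (S 0 + (N - 1)) N
      omega
  obtain ⟨q, hq1, hq2⟩ := hq
  have hex : ∃ j, N * q ≤ S j := ⟨n, by omega⟩
  have hjn : Nat.find hex ≤ n := Nat.find_min' hex (by omega)
  have hj := Nat.find_spec hex
  refine ⟨Nat.find hex, hjn, ?_⟩
  have hlt : S (Nat.find hex) < N * q + m := by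
    rcases Nat.eq_zero_or_pos (Nat.find hex) with h0 | h0
    · rw [h0]
      rw [h0] at hj
      omega
    · obtain ⟨i, hi⟩ : ∃ i, Nat.find hex = i + 1 := ⟨Nat.find hex - 1, by omega⟩
      have h1 : ¬ N * q ≤ S i := Nat.find_min hex (by omega)
      have h2 := hs i (by omega)
      rw [hi]
      omega
  obtain ⟨t, ht⟩ := Nat.exists_eq_add_of_le hj
  rw [ht, Nat.mul_add_mod]
  rw [Nat.mod_eq_of_lt (by omega)]
  omega

theorem t_C2 : S_C2 := by
  intro m a b hab s
  have hm : 0 < m := by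
    have := hab 0
    omega
  let f : ℕ → Fin (m + 1) → ℕ := fun j l => if (l : ℕ) < j then b l else a l
  have hstep : ∀ j < m + 1, ∑ l, f (j + 1) l ≤ ∑ l, f j l + (m - 1) := by
    intro j hj
    have h1 : ∀ l : Fin (m + 1), f (j + 1) l ≤ f j l + (if l = ⟨j, hj⟩ then m - 1 else 0) := by
      intro l
      have h2 := hab l
      by_cases hl : l = ⟨j, hj⟩
      · have h3 : (l : ℕ) = j := by rw [hl]
        simp only [f, h3, lt_irrefl, if_false, hl, if_true, Nat.lt_succ_self]
        rw [hl] at h2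
        omega
      · have h3 : (l : ℕ) ≠ j := fun h => hl (Fin.ext h)
        simp only [f, hl, if_false]
        by_cases h4 : (l : ℕ) < j
        · rw [if_pos h4, if_pos (by omega)]
          omega
        · rw [if_neg h4, if_neg (by omega)]
          omega
    refine (Finset.sum_le_sum (fun l _ => h1 l)).trans ?_
    rw [Finset.sum_add_distrib]
    simp
  have h0 : ∑ l, f 0 l = ∑ l, a l := by
    simp [f]
  have hn : ∑ l, f (m + 1) l = ∑ l, b l := by
    refine Finset.sum_congr rfl (fun l _ => ?_)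
    simp only [f]
    rw [if_pos l.2]
  have hbig : ∑ l, a l + (4 * m + 4) ≤ ∑ l, b l := by
    have h1 : ∑ l : Fin (m + 1), (a l + 4) ≤ ∑ l, b l :=
      Finset.sum_le_sum (fun l _ => (hab l).1)
    rw [Finset.sum_add_distrib] at h1
    simp at h1
    omega
  obtain ⟨j, -, hj⟩ := c2_steps m hm (fun j => ∑ l, f j l + s) (m + 1)
    (fun j hj => by
      have := hstep j hj
      show ∑ l, f (j + 1) l + s ≤ ∑ l, f j l + s + (m - 1)
      omega)
    (by
      show ∑ l, f 0 l + s + (4 * m + 4) ≤ ∑ l, f (m + 1) l + s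
      rw [h0, hn]
      omega)
  refine ⟨f j, fun l => ?_, hj⟩
  simp only [f]
  by_cases h : (l : ℕ) < j
  · right
    rw [if_pos h]
  · left
    rw [if_neg h]

end Pool.Agent.N495.DT
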