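import Pool.Agent.N299.DT.Stm

set_option autoImplicit false

namespace Pool.Agent.N495.DT

open Pool.Agent.N299.DT

/-- points of the plane over the field with `p` elements -/
abbrev Pt (p : ℕ) : Type := ZMod p × ZMod p

/-- the slope of the pair `(a, v)` -/
def sl (n p : ℕ) (a v : Fin n) : ZMod p := (((a : ℕ) * n + (v : ℕ) : ℕ) : ZMod p)

/-- the labels -/
structure Lb (n p : ℕ) where
  a : Fin n
  v : Fin n
  A : Pt p
  B : Pt p
  lt : A.1.val < B.1.val
  on : B.2 - A.2 = sl n p a v * (B.1 - A.1)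

theorem Lb.ext' {n p : ℕ} {x y : Lb n p} (h1 : x.a = y.a) (h2 : x.v = y.v) (h3 : x.A = y.A)
    (h4 : x.B = y.B) : x = y := by
  cases x; cases y; subst h1; subst h2; subst h3; subst h4; rfl

theorem finite_Lb (n p : ℕ) [NeZero p] : Finite (Lb n p) := by
  refine Finite.of_injective (fun x : Lb n p => (x.a, x.v, x.A, x.B)) ?_
  intro x y h
  simp only [Prod.mk.injEq] at h
  exact Lb.ext' h.1 h.2.1 (by ext <;> simp [h.2.2.1]) (by ext <;> simp [h.2.2.2])

theorem sl_inj {n p : ℕ} (hn : n * n < p) {a v a' v' : Fin n} (h : sl n p a v = sl n p a' v') :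
    a = a' ∧ v = v' := by
  have hb : ∀ a v : Fin n, (a : ℕ) * n + (v : ℕ) < p := by
    intro a v
    have h1 := a.2
    have h2 := v.2
    have h3 : ((a : ℕ) + 1) * n ≤ n * n := Nat.mul_le_mul_right n h1
    have h4 : ((a : ℕ) + 1) * n = (a : ℕ) * n + n := by ring
    omega
  unfold sl at h
  rw [ZMod.natCast_eq_natCast_iff'] at h
  rw [Nat.mod_eq_of_lt (hb a v), Nat.mod_eq_of_lt (hb a' v')] at h
  have hn0 : 0 < n := lt_of_le_of_lt (Nat.zero_le _) v.2
  have h5 : (a : ℕ) = a' := by
    have e1 : ((a : ℕ) * n + (v : ℕ)) / n = a := by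
      rw [Nat.add_comm, Nat.add_mul_div_right _ _ hn0, Nat.div_eq_of_lt v.2, Nat.zero_add]
    have e2 : ((a' : ℕ) * n + (v' : ℕ)) / n = a' := by
      rw [Nat.add_comm, Nat.add_mul_div_right _ _ hn0, Nat.div_eq_of_lt v'.2, Nat.zero_add]
    rw [← e1, ← e2, h]
  refine ⟨Fin.ext h5, Fin.ext ?_⟩
  rw [h5] at h
  omega

open Classical in
/-- the value of a label at a block -/
noncomputable def gg {n p : ℕ} (x : Lb n p) : Option (Pt p) → Option (Fin n)
  | none => some x.a
  | some Q => if Q = x.A ∨ Q = x.B then some x.v else none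

theorem gg_none {n p : ℕ} (x : Lb n p) (Q : Pt p) :
    gg x (some Q) = none ↔ ¬ (Q = x.A ∨ Q = x.B) := by
  by_cases h : Q = x.A ∨ Q = x.B
  · simp [gg, h]
  · simp [gg, h]

theorem supp_inj {n p : ℕ} [Fact p.Prime] (hn : n * n < p) (x y : Lb n p)
    (h : ∀ l, gg x l = none ↔ gg y l = none) : x = y := by
  have h1 : ∀ Q : Pt p, (Q = x.A ∨ Q = x.B) ↔ (Q = y.A ∨ Q = y.B) := by
    intro Q
    have := h (some Q)
    rw [gg_none, gg_none] at this
    exact not_iff_not.mp this
  have hA : x.A = y.A ∧ x.B = y.B := by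
    have hx := x.lt
    have hy := y.lt
    rcases (h1 x.A).mp (Or.inl rfl) with e | e
    · rcases (h1 x.B).mp (Or.inr rfl) with e' | e'
      · rw [e, e'] at hx
        exact absurd hx (lt_irrefl _)
      · exact ⟨e, e'⟩
    · rcases (h1 x.B).mp (Or.inr rfl) with e' | e'
      · rw [e, e'] at hx
        exact absurd hx (not_lt.mpr hy.le)
      · rw [e, e'] at hx
        exact absurd hx (lt_irrefl _)
  have hne : y.B.1 - y.A.1 ≠ 0 := by
    intro h0
    have h2 := y.lt
    rw [sub_eq_zero.mp h0] at h2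
    exact lt_irrefl _ h2
  have hs : sl n p x.a x.v = sl n p y.a y.v := by
    have h3 := x.on
    rw [hA.1, hA.2, y.on] at h3
    exact (mul_right_cancel₀ hne h3).symm
  obtain ⟨h4, h5⟩ := sl_inj hn hs
  exact Lb.ext' h4 h5 hA.1 hA.2

theorem cover {n p : ℕ} [Fact p.Prime] (hn : n < p) (i : Option (Pt p) → Fin n) :
    ∃ x : Lb n p, ∀ l, gg x l = none ∨ gg x l = some (i l) := by
  classical
  have hp : 0 < p := (Fact.out : p.Prime).pos
  let Φ : Pt p → Fin n × ZMod p := fun Q =>
    (i (some Q), Q.2 - sl n p (i none) (i (some Q)) * Q.1)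
  have hcard : Fintype.card (Fin n × ZMod p) < Fintype.card (Pt p) := by
    rw [Fintype.card_prod, Fintype.card_prod, Fintype.card_fin, ZMod.card]
    exact Nat.mul_lt_mul_of_pos_right hn hp
  obtain ⟨Q, Q', hne, hQ⟩ := Fintype.exists_ne_map_eq_of_card_lt Φ hcard
  have h1 : i (some Q) = i (some Q') := congrArg Prod.fst hQ
  have h2 : Q.2 - sl n p (i none) (i (some Q)) * Q.1 =
      Q'.2 - sl n p (i none) (i (some Q')) * Q'.1 := congrArg Prod.snd hQ
  have key : ∀ R R' : Pt p, R ≠ R' → i (some R) = i (some R') →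
      R.2 - sl n p (i none) (i (some R)) * R.1 = R'.2 - sl n p (i none) (i (some R')) * R'.1 →
      R.1.val < R'.1.val → ∃ x : Lb n p, ∀ l, gg x l = none ∨ gg x l = some (i l) := by
    intro R R' _ e1 e2 hlt
    refine ⟨⟨i none, i (some R), R, R', hlt, ?_⟩, ?_⟩
    · rw [← e1] at e2
      linear_combination (-1 : ZMod p) * e2
    · intro l
      cases l with
      | none => exact Or.inr rfl
      | some S =>
        unfold gg
        by_cases hS : S = R ∨ S = R'
        · right
          simp only [hS, if_true]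
          rcases hS with rfl | rfl
          · rfl
          · rw [e1]
        · left
          simp only [hS, if_false]
  rcases lt_trichotomy Q.1.val Q'.1.val with h | h | h
  · exact key Q Q' hne h1 h2 h
  · exfalso
    have h3 : Q.1 = Q'.1 := ZMod.val_injective p h
    rw [← h1, h3] at h2
    apply hne
    exact Prod.ext h3 (sub_left_injective h2)
  · exact key Q' Q (Ne.symm hne) h1.symm h2.symm h

theorem t_COV : S_COV := by
  intro n hn
  obtain ⟨p, hp1, hp⟩ := Nat.exists_infinite_primes (n * n + 1)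
  have : Fact p.Prime := ⟨hp⟩
  have : NeZero p := ⟨hp.ne_zero⟩
  have := finite_Lb n p
  have hnn : n * n < p := by omega
  have hn' : n < p := lt_of_le_of_lt (Nat.le_mul_self n) hnn
  obtain ⟨J, ⟨eJ⟩⟩ := Finite.exists_equiv_fin (Lb n p)
  let eK : Fin (Fintype.card (Pt p)) ≃ Pt p := (Fintype.equivFin (Pt p)).symm
  let e : Fin (Fintype.card (Pt p) + 1) ≃ Option (Pt p) :=
    (finSuccEquiv (Fintype.card (Pt p))).trans (Equiv.optionCongr eK)
  have he0 : e 0 = none := by
    simp [e]
  refine ⟨Fintype.card (Pt p), J, fun j l => gg (eJ.symm j) (e l), ?_, ?_, ?_⟩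
  · intro j
    simp only [he0]
    unfold gg
    simp
  · intro j j' hj
    by_contra hno
    push Not at hno
    apply hj
    apply eJ.symm.injective
    refine supp_inj hnn _ _ (fun l => ?_)
    have := hno (e.symm l)
    simpa using this
  · intro i
    obtain ⟨x, hx⟩ := cover hn' (fun l => i (e.symm l))
    refine ⟨eJ x, fun l => ?_⟩
    have := hx (e l)
    simpa using this

end Pool.Agent.N495.DT
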